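import Mathlib

set_option autoImplicit false
open Classical Filter Topology

namespace Pool.Agent.L5helper20.Cube

variable {n : ℕ}

/-- coordinates with value one -/
noncomputable def ones (D : Fin n → Option Bool) : Finset (Fin n) :=
  Finset.univ.filter (fun i => D i = some true)

/-- inner product over the field with two elements -/
def ip (c w : Fin n → ZMod 2) : ZMod 2 := ∑ k, c k * w k

lemma ip_add (c c' w : Fin n → ZMod 2) : ip (c + c') w = ip c w + ip c' w := by
  simp [ip, add_mul, Finset.sum_add_distrib]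

/-- admissible functionals for a set with r elements -/
def Adm (s r : ℕ) (c : Fin n → ZMod 2) : Prop :=
  c ≠ 0 ∧ ∀ k : Fin n, r ≤ (k : ℕ) + s → c k = 0

/-- the set `A` is bad for the assignment `v` -/
def Bad (s : ℕ) (v : Fin n → Fin n → ZMod 2) (A : Finset (Fin n)) : Prop :=
  ∃ c : Fin n → ZMod 2, Adm s A.card c ∧ ∀ i ∈ A, ip c (v i) = 0

/-- hyperplanes have half of the points -/
lemma card_hyp (c : Fin n → ZMod 2) (hc : c ≠ 0) :
    2 * (Finset.univ.filter (fun w : Fin n → ZMod 2 => ip c w = 0)).card = 2 ^ n := by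
  obtain ⟨k, hk⟩ : ∃ k, c k ≠ 0 := by
    by_contra h
    push Not at h
    exact hc (funext h)
  have hk1 : c k = 1 := by
    have : ∀ x : ZMod 2, x ≠ 0 → x = 1 := by decide
    exact this _ hk
  have hip : ∀ w : Fin n → ZMod 2, ip c (w + Pi.single k 1) = ip c w + 1 := by
    intro w
    simp only [ip, Pi.add_apply, mul_add, Finset.sum_add_distrib]
    congr 1
    rw [Finset.sum_eq_single k]
    · simp [hk1]
    · intro b _ hb
      simp [hb]
    · simp
  have h1 : (Finset.univ.filter (fun w : Fin n → ZMod 2 => ip c w = 0)).card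
      = (Finset.univ.filter (fun w : Fin n → ZMod 2 => ¬ ip c w = 0)).card := by
    have hinv : ∀ w : Fin n → ZMod 2, w + Pi.single k 1 + Pi.single k 1 = w := by
      intro w
      funext i
      by_cases hi : i = k
      · subst hi
        simp only [Pi.add_apply, Pi.single_eq_same]
        have : ∀ x : ZMod 2, x + 1 + 1 = x := by decide
        exact this _
      · simp [hi]
    refine Finset.card_nbij' (fun w => w + Pi.single k 1) (fun w => w + Pi.single k 1)
      ?_ ?_ (fun w _ => hinv w) (fun w _ => hinv w)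
    · intro w hw
      simp only [Finset.coe_filter, Finset.mem_univ, true_and, Set.mem_ofPred_eq] at hw ⊢
      rw [hip, hw]
      decide
    · intro w hw
      simp only [Finset.coe_filter, Finset.mem_univ, true_and, Set.mem_ofPred_eq] at hw ⊢
      rw [hip]
      have : ∀ x : ZMod 2, x ≠ 0 → x + 1 = 0 := by decide
      exact this _ hw
  have h2 := Finset.card_filter_add_card_filter_not (s := (Finset.univ : Finset (Fin n → ZMod 2)))
    (fun w => ip c w = 0)
  have h3 : (Finset.univ : Finset (Fin n → ZMod 2)).card = 2 ^ n := by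
    rw [Finset.card_univ]
    simp [ZMod.card]
  omega

lemma card_killed (c : Fin n → ZMod 2) (hc : c ≠ 0) (A : Finset (Fin n)) :
    2 ^ A.card * (Finset.univ.filter
      (fun v : Fin n → Fin n → ZMod 2 => ∀ i ∈ A, ip c (v i) = 0)).card = 2 ^ (n * n) := by
  set H := Finset.univ.filter (fun w : Fin n → ZMod 2 => ip c w = 0) with hH
  have e : (Finset.univ.filter
      (fun v : Fin n → Fin n → ZMod 2 => ∀ i ∈ A, ip c (v i) = 0))
      = Fintype.piFinset (fun i => if i ∈ A then H else Finset.univ) := by
    ext v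
    simp only [Finset.mem_filter, Finset.mem_univ, true_and, Fintype.mem_piFinset]
    constructor
    · intro h i
      by_cases hi : i ∈ A
      · simp [hi, hH, h i hi]
      · simp [hi]
    · intro h i hi
      have := h i
      simpa [hi, hH] using this
  rw [e, Fintype.card_piFinset]
  have h3 : (Finset.univ : Finset (Fin n → ZMod 2)).card = 2 ^ n := by
    rw [Finset.card_univ]
    simp [ZMod.card]
  have : ∀ i, (if i ∈ A then H else Finset.univ).card = if i ∈ A then H.card else 2 ^ n := by
    intro i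
    by_cases hi : i ∈ A <;> simp [hi, h3]
  simp_rw [this]
  have h4 : (2 : ℕ) ^ A.card = ∏ i : Fin n, (if i ∈ A then 2 else 1) := by
    rw [Finset.prod_ite]
    simp
  rw [h4, ← Finset.prod_mul_distrib]
  have : ∀ i : Fin n, (if i ∈ A then 2 else 1) * (if i ∈ A then H.card else 2 ^ n) = 2 ^ n := by
    intro i
    by_cases hi : i ∈ A
    · simp [hi, hH, card_hyp c hc]
    · simp [hi]
  simp_rw [this]
  simp [pow_mul]

lemma card_adm (s r : ℕ) :
    2 ^ s * (Finset.univ.filter (fun c : Fin n → ZMod 2 => Adm s r c)).card ≤ 2 ^ r := by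
  by_cases hr : r ≤ s
  · have : (Finset.univ.filter (fun c : Fin n → ZMod 2 => Adm s r c)) = ∅ := by
      rw [Finset.filter_eq_empty_iff]
      rintro c - ⟨h1, h2⟩
      apply h1
      funext k
      exact h2 k (by omega)
    simp [this]
  · push Not at hr
    have h1 : (Finset.univ.filter (fun c : Fin n → ZMod 2 => Adm s r c)).card
        ≤ (Finset.univ : Finset (Fin (r - s) → ZMod 2)).card := by
      apply Finset.card_le_card_of_injOn
        (fun c => fun k : Fin (r - s) => if h : (k : ℕ) < n then c ⟨k, h⟩ else 0)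
      · intro c _
        simp
      · intro c hc c' hc' h
        simp only [Finset.coe_filter, Finset.mem_univ, true_and, Set.mem_ofPred_eq] at hc hc'
        funext k
        by_cases hk : r ≤ (k : ℕ) + s
        · rw [hc.2 k hk, hc'.2 k hk]
        · have := congrFun h ⟨k, by omega⟩
          simpa using this
    have h3 : (Finset.univ : Finset (Fin (r - s) → ZMod 2)).card = 2 ^ (r - s) := by
      rw [Finset.card_univ]
      simp [ZMod.card]
    calc _ ≤ 2 ^ s * 2 ^ (r - s) := Nat.mul_le_mul_left _ (h3 ▸ h1)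
      _ = 2 ^ r := by rw [← pow_add]; congr 1; omega

lemma card_bad (s : ℕ) (A : Finset (Fin n)) :
    2 ^ s * (Finset.univ.filter
      (fun v : Fin n → Fin n → ZMod 2 => Bad s v A)).card ≤ 2 ^ (n * n) := by
  have h1 : (Finset.univ.filter (fun v : Fin n → Fin n → ZMod 2 => Bad s v A)).card ≤
      ∑ c ∈ Finset.univ.filter (fun c : Fin n → ZMod 2 => Adm s A.card c),
        (Finset.univ.filter
          (fun v : Fin n → Fin n → ZMod 2 => ∀ i ∈ A, ip c (v i) = 0)).card := by
    refine (Finset.card_le_card ?_).trans Finset.card_biUnion_le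
    intro v hv
    simp only [Finset.mem_filter, Finset.mem_univ, true_and] at hv
    obtain ⟨c, hc, hv⟩ := hv
    simp only [Finset.mem_biUnion, Finset.mem_filter, Finset.mem_univ, true_and]
    exact ⟨c, hc, hv⟩
  have h2 : 2 ^ A.card * (Finset.univ.filter
      (fun v : Fin n → Fin n → ZMod 2 => Bad s v A)).card ≤
      (Finset.univ.filter (fun c : Fin n → ZMod 2 => Adm s A.card c)).card * 2 ^ (n * n) := by
    refine (Nat.mul_le_mul_left _ h1).trans ?_
    rw [Finset.mul_sum, Finset.sum_congr rfl (g := fun _ => 2 ^ (n * n))]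
    · simp
    · intro c hc
      simp only [Finset.mem_filter, Finset.mem_univ, true_and] at hc
      exact card_killed c hc.1 A
  have h3 := card_adm (n := n) s A.card
  have h4 : 2 ^ A.card * (2 ^ s * (Finset.univ.filter
      (fun v : Fin n → Fin n → ZMod 2 => Bad s v A)).card) ≤ 2 ^ A.card * 2 ^ (n * n) := by
    calc _ = 2 ^ s * (2 ^ A.card * (Finset.univ.filter
      (fun v : Fin n → Fin n → ZMod 2 => Bad s v A)).card) := by ring
      _ ≤ 2 ^ s * ((Finset.univ.filter (fun c : Fin n → ZMod 2 => Adm s A.card c)).card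
            * 2 ^ (n * n)) := Nat.mul_le_mul_left _ h2
      _ = (2 ^ s * (Finset.univ.filter (fun c : Fin n → ZMod 2 => Adm s A.card c)).card)
            * 2 ^ (n * n) := by ring
      _ ≤ _ := Nat.mul_le_mul_right _ h3
  exact Nat.le_of_mul_le_mul_left h4 (by positivity)

/-- averaging -/
lemma exists_assignment (s : ℕ) (Q : Finset (Fin n → Option Bool)) :
    ∃ v : Fin n → Fin n → ZMod 2,
      2 ^ s * (Q.filter (fun D => Bad s v (ones D))).card ≤ Q.card := by
  by_contra h
  push Not at h
  have h1 : ∑ v : Fin n → Fin n → ZMod 2, Q.card <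
      ∑ v : Fin n → Fin n → ZMod 2, 2 ^ s * (Q.filter (fun D => Bad s v (ones D))).card :=
    Finset.sum_lt_sum_of_nonempty Finset.univ_nonempty (fun v _ => h v)
  have h2 : ∑ v : Fin n → Fin n → ZMod 2, (Q.filter (fun D => Bad s v (ones D))).card
      = ∑ D ∈ Q, (Finset.univ.filter
      (fun v : Fin n → Fin n → ZMod 2 => Bad s v (ones D))).card := by
    simp_rw [Finset.card_filter]
    rw [Finset.sum_comm]
  rw [← Finset.mul_sum, h2, Finset.mul_sum] at h1
  have h3 : ∑ D ∈ Q, 2 ^ s * (Finset.univ.filter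
      (fun v : Fin n → Fin n → ZMod 2 => Bad s v (ones D))).card ≤ ∑ D ∈ Q, 2 ^ (n * n) :=
    Finset.sum_le_sum (fun D _ => card_bad s _)
  have h4 : (Finset.univ : Finset (Fin n → Fin n → ZMod 2)).card = 2 ^ (n * n) := by
    rw [Finset.card_univ]
    simp [ZMod.card, pow_mul]
  simp only [Finset.sum_const, smul_eq_mul, h4] at h1 h3
  nlinarith

/-- two functionals killing `A` -/
lemma exists_two (v : Fin n → Fin n → ZMod 2) (A : Finset (Fin n)) (hA : A.card + 2 ≤ n) :
    ∃ c c' : Fin n → ZMod 2, c ≠ 0 ∧ c' ≠ 0 ∧ c + c' ≠ 0 ∧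
      (∀ k : Fin n, A.card + 2 ≤ (k : ℕ) → c k = 0) ∧
      (∀ k : Fin n, A.card + 2 ≤ (k : ℕ) → c' k = 0) ∧
      (∀ i ∈ A, ip c (v i) = 0) ∧ ∀ i ∈ A, ip c' (v i) = 0 := by
  set a := A.card with ha
  -- the map from F_2^(a+2) to F_2^A
  let ext : (Fin (a + 2) → ZMod 2) →ₗ[ZMod 2] (Fin n → ZMod 2) :=
    { toFun := fun x k => if h : (k : ℕ) < a + 2 then x ⟨k, h⟩ else 0
      map_add' := by
        intro x y
        funext k
        by_cases h : (k : ℕ) < a + 2 <;> simp [h]
      map_smul' := by
        intro r x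
        funext k
        by_cases h : (k : ℕ) < a + 2 <;> simp [h] }
  let f : (Fin (a + 2) → ZMod 2) →ₗ[ZMod 2] (A → ZMod 2) :=
    { toFun := fun x i => ip (ext x) (v i)
      map_add' := by
        intro x y
        funext i
        simp [ip_add]
      map_smul' := by
        intro r x
        funext i
        simp [ip, Finset.mul_sum, mul_assoc] }
  have hrank := LinearMap.finrank_range_add_finrank_ker f
  have hr : Module.finrank (ZMod 2) (LinearMap.range f) ≤ a := by
    refine (Submodule.finrank_le _).trans ?_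
    simp [ha]
  have hk : 2 ≤ Module.finrank (ZMod 2) (LinearMap.ker f) := by
    simp at hrank
    omega
  have hcard : 4 ≤ Fintype.card (LinearMap.ker f) := by
    rw [Module.card_eq_pow_finrank (K := ZMod 2), ZMod.card]
    calc 4 = 2 ^ 2 := by norm_num
      _ ≤ _ := Nat.pow_le_pow_right (by norm_num) hk
  obtain ⟨x, hx⟩ : ∃ x : LinearMap.ker f, x ≠ 0 := by
    by_contra h
    push Not at h
    have : Fintype.card (LinearMap.ker f) ≤ 1 :=
      Fintype.card_le_one_iff.mpr (fun a b => by rw [h a, h b])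
    omega
  obtain ⟨y, hy⟩ : ∃ y : LinearMap.ker f, y ∉ ({0, x} : Finset (LinearMap.ker f)) := by
    by_contra h
    push Not at h
    have h1 : (Finset.univ : Finset (LinearMap.ker f)) ⊆ {0, x} := fun z _ => h z
    have h2 := Finset.card_le_card h1
    have h3 : ({0, x} : Finset (LinearMap.ker f)).card ≤ 2 := Finset.card_le_two
    rw [Finset.card_univ] at h2
    omega
  have hext : ∀ z : Fin (a + 2) → ZMod 2, z ≠ 0 → ext z ≠ 0 := by
    intro z hz h0
    apply hz
    funext k
    have := congrFun h0 ⟨k, by omega⟩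
    simpa [ext] using this
  have hz0 : ∀ z : LinearMap.ker f, z ≠ 0 → ext z.1 ≠ 0 := fun z hz => hext _ (by simpa using hz)
  have hs : ∀ z : Fin (a + 2) → ZMod 2, ∀ k : Fin n, a + 2 ≤ (k : ℕ) → ext z k = 0 := by
    intro z k hk
    simp only [ext, LinearMap.coe_mk, AddHom.coe_mk]
    rw [dif_neg (by omega)]
  have hker : ∀ z : LinearMap.ker f, ∀ i ∈ A, ip (ext z.1) (v i) = 0 := by
    intro z i hi
    have := congrFun (LinearMap.mem_ker.mp z.2) ⟨i, hi⟩
    exact this
  simp only [Finset.mem_insert, Finset.mem_singleton, not_or] at hy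
  refine ⟨ext x.1, ext y.1, hz0 x hx, hz0 y hy.1, ?_, hs _, hs _, hker x, hker y⟩
  rw [← map_add]
  have : x + y ≠ 0 := by
    intro h
    apply hy.2
    have h1 : y = -x := (neg_eq_of_add_eq_zero_right h).symm
    rw [h1]
    ext k
    simp [ZMod.neg_eq_self_mod_two]
  exact hz0 (x + y) this

/-- every subcube of dimension `3 m + 2` contains a bad 2-subcube -/
lemma exists_bad {m : ℕ} (hm : 1 ≤ m) (v : Fin n → Fin n → ZMod 2) (C : Fin n → Option Bool)
    (hC : (Finset.univ.filter (fun i => C i = none)).card = 3 * m + 2) :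
    ∃ D : Fin n → Option Bool, (Finset.univ.filter (fun i => D i = none)).card = 2 ∧
      (∀ (i : Fin n) (b : Bool), C i = some b → D i = some b) ∧ Bad (m - 1) v (ones D) := by
  set Fl := Finset.univ.filter (fun i => C i = none) with hFl
  have hdis : Disjoint (ones C) Fl := by
    rw [Finset.disjoint_left]
    intro i hi hi'
    simp only [ones, hFl, Finset.mem_filter, Finset.mem_univ, true_and] at hi hi'
    rw [hi] at hi'
    simp at hi'
  have hsum : (ones C).card + (3 * m + 2) ≤ n := by
    rw [← hC, ← Finset.card_union_of_disjoint hdis]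
    simpa using Finset.card_le_univ (ones C ∪ Fl)
  obtain ⟨c, c', h1, h2, h3, hs, hs', hk, hk'⟩ := exists_two v (ones C) (by omega)
  -- pigeonhole
  obtain ⟨e, he0, hes, hek, J, hJ, hJc, hJk⟩ : ∃ e : Fin n → ZMod 2, e ≠ 0 ∧
      (∀ k : Fin n, (ones C).card + 2 ≤ (k : ℕ) → e k = 0) ∧
      (∀ i ∈ ones C, ip e (v i) = 0) ∧ ∃ J : Finset (Fin n), J ⊆ Fl ∧ J.card = m + 1 ∧
      ∀ i ∈ J, ip e (v i) = 0 := by
    have hcov : Fl ⊆ (Fl.filter (fun i => ip c (v i) = 0) ∪ Fl.filter (fun i => ip c' (v i) = 0)) ∪
        Fl.filter (fun i => ip (c + c') (v i) = 0) := by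
      intro i hi
      simp only [Finset.mem_union, Finset.mem_filter, hi, true_and, ip_add]
      have : ∀ x y : ZMod 2, (x = 0 ∨ y = 0) ∨ x + y = 0 := by decide
      exact this _ _
    have hcard := (Finset.card_le_card hcov).trans
      ((Finset.card_union_le _ _).trans (Nat.add_le_add_right (Finset.card_union_le _ _) _))
    rw [hC] at hcard
    have key : ∀ e : Fin n → ZMod 2, e ≠ 0 →
        (∀ k : Fin n, (ones C).card + 2 ≤ (k : ℕ) → e k = 0) →
        (∀ i ∈ ones C, ip e (v i) = 0) → m + 1 ≤ (Fl.filter (fun i => ip e (v i) = 0)).card →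
        ∃ e : Fin n → ZMod 2, e ≠ 0 ∧
      (∀ k : Fin n, (ones C).card + 2 ≤ (k : ℕ) → e k = 0) ∧
      (∀ i ∈ ones C, ip e (v i) = 0) ∧ ∃ J : Finset (Fin n), J ⊆ Fl ∧ J.card = m + 1 ∧
      ∀ i ∈ J, ip e (v i) = 0 := by
      intro e he1 he2 he3 he4
      obtain ⟨J, hJ1, hJ2⟩ := Finset.exists_subset_card_eq he4
      exact ⟨e, he1, he2, he3, J, hJ1.trans (Finset.filter_subset _ _), hJ2,
        fun i hi => (Finset.mem_filter.mp (hJ1 hi)).2⟩
    rcases Nat.lt_or_ge m (Fl.filter (fun i => ip c (v i) = 0)).card with h | h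
    · exact key c h1 hs hk h
    rcases Nat.lt_or_ge m (Fl.filter (fun i => ip c' (v i) = 0)).card with h' | h'
    · exact key c' h2 hs' hk' h'
    · refine key (c + c') h3 ?_ ?_ ?_
      · intro k hk
        simp [hs k hk, hs' k hk]
      · intro i hi
        rw [ip_add, hk i hi, hk' i hi, add_zero]
      · omega
  obtain ⟨P, hP1, hP2⟩ : ∃ P ⊆ Fl \ J, P.card = 2 := by
    apply Finset.exists_subset_card_eq
    rw [Finset.card_sdiff_of_subset hJ]
    omega
  have hCJ : ∀ i ∈ Fl, C i = none := fun i hi => by simpa [hFl] using hi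
  refine ⟨fun i => if i ∈ Fl then (if i ∈ P then none else some (decide (i ∈ J))) else C i,
    ?_, ?_, ?_⟩
  · rw [← hP2]
    congr 1
    ext i
    simp only [Finset.mem_filter, Finset.mem_univ, true_and]
    constructor
    · intro h
      by_cases hi : i ∈ Fl
      · by_contra hiP
        simp [hi, hiP] at h
      · exfalso
        apply hi
        simp only [if_neg hi] at h
        simp [hFl, h]
    · intro h
      have hi : i ∈ Fl := (Finset.mem_sdiff.mp (hP1 h)).1
      simp [hi, h]
  · intro i b hi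
    have : i ∉ Fl := by
      simp [hFl, hi]
    simp [this, hi]
  · have hones : ones (fun i => if i ∈ Fl then (if i ∈ P then none else some (decide (i ∈ J)))
        else C i) = ones C ∪ J := by
      ext i
      simp only [ones, Finset.mem_filter, Finset.mem_univ, true_and, Finset.mem_union]
      by_cases hi : i ∈ Fl
      · by_cases hiP : i ∈ P
        · have : i ∉ J := (Finset.mem_sdiff.mp (hP1 hiP)).2
          simp [hi, hiP, this, hCJ i hi]
        · simp [hi, hiP, hCJ i hi]
      · have : i ∉ J := fun h => hi (hJ h)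
        simp [hi, this]
    rw [hones]
    have hd : Disjoint (ones C) J := hdis.mono_right hJ
    refine ⟨e, ⟨he0, ?_⟩, ?_⟩
    · intro k hk
      rw [Finset.card_union_of_disjoint hd, hJc] at hk
      exact hes k (by omega)
    · intro i hi
      rcases Finset.mem_union.mp hi with h | h
      · exact hek i h
      · exact hJk i h

end Pool.Agent.L5helper20.Cube
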